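import Pool.Agent.H821R3.Fin

/-!
For every `n ≥ 2` there is an `SL(n)`-invariant Minkowski valuation with values in the convex bodies
of the traceless endomorphisms which is upper semicontinuous but not continuous: integrate the
segments `[-a, a]`, `a` the traceless part of `x ⊗ u`, against the affine surface area measure on
the normalised normal pairs `(x, u)`.
-/

set_option autoImplicit false
open scoped Pointwise Matrix
open Filter Topology MeasureTheory Set

namespace Pool.Agent.Results.MP_aac655_gt.TracelessValuation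

/-- The space `W₀` of endomorphisms (real `n × n` matrices) of trace zero, with the maximum norm
of the entries. -/
def W₀ (n : ℕ) : Submodule ℝ (Fin n → Fin n → ℝ) where
  carrier := {A | ∑ i, A i i = 0}
  add_mem' := by
    intro A B hA hB
    simp only [Set.mem_setOf_eq, Pi.add_apply, Finset.sum_add_distrib] at *
    rw [hA, hB, add_zero]
  zero_mem' := by simp
  smul_mem' := by
    intro c A hA
    simp only [Set.mem_setOf_eq, Pi.smul_apply, smul_eq_mul, ← Finset.mul_sum] at *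
    rw [hA, mul_zero]

open Pool.Agent.H821R3 in
/-- conjugation as a continuous linear equivalence -/
noncomputable def cj {n : ℕ} (T S : Matrix (Fin n) (Fin n) ℝ) (h1 : T * S = 1) (h2 : S * T = 1) :
    W₀ n ≃L[ℝ] W₀ n :=
  LinearEquiv.toContinuousLinearEquiv
    { toFun := fun A => ⟨fun i j => (T * Matrix.of A.1 * S) i j, by
        have h : (T * Matrix.of A.1 * S).trace = 0 := by
          rw [Matrix.trace_mul_comm, ← Matrix.mul_assoc, h2, Matrix.one_mul]
          exact A.2
        exact h⟩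
      invFun := fun A => ⟨fun i j => (S * Matrix.of A.1 * T) i j, by
        have h : (S * Matrix.of A.1 * T).trace = 0 := by
          rw [Matrix.trace_mul_comm, ← Matrix.mul_assoc, h1, Matrix.one_mul]
          exact A.2
        exact h⟩
      map_add' := by
        intro A B
        apply Subtype.ext
        funext i j
        show (T * Matrix.of (A.1 + B.1) * S) i j =
          (T * Matrix.of A.1 * S) i j + (T * Matrix.of B.1 * S) i j
        rw [← Matrix.of_add_of, Matrix.mul_add, Matrix.add_mul, Matrix.add_apply]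
      map_smul' := by
        intro c A
        apply Subtype.ext
        funext i j
        show (T * Matrix.of (c • A.1) * S) i j = c * (T * Matrix.of A.1 * S) i j
        rw [← Matrix.smul_of, Matrix.mul_smul, Matrix.smul_mul, Matrix.smul_apply, smul_eq_mul]
      left_inv := by
        intro A
        apply Subtype.ext
        funext i j
        show (S * (T * Matrix.of A.1 * S) * T) i j = A.1 i j
        have : S * (T * Matrix.of A.1 * S) * T = Matrix.of A.1 := by
          calc S * (T * Matrix.of A.1 * S) * T = (S * T) * Matrix.of A.1 * (S * T) := by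
                simp only [Matrix.mul_assoc]
            _ = Matrix.of A.1 := by rw [h2, Matrix.one_mul, Matrix.mul_one]
        rw [this]; rfl
      right_inv := by
        intro A
        apply Subtype.ext
        funext i j
        show (T * (S * Matrix.of A.1 * T) * S) i j = A.1 i j
        have : T * (S * Matrix.of A.1 * T) * S = Matrix.of A.1 := by
          calc T * (S * Matrix.of A.1 * T) * S = (T * S) * Matrix.of A.1 * (T * S) := by
                simp only [Matrix.mul_assoc]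
            _ = Matrix.of A.1 := by rw [h1, Matrix.one_mul, Matrix.mul_one]
        rw [this]; rfl }

theorem cj_apply {n : ℕ} (T S : Matrix (Fin n) (Fin n) ℝ) (h1 : T * S = 1) (h2 : S * T = 1)
    (A : W₀ n) : Matrix.of (cj T S h1 h2 A).1 = T * Matrix.of A.1 * S := rfl

/-- the traceless part of `x ⊗ u` -/
noncomputable def vt {n : ℕ} (hn : 0 < n) (p : (Fin n → ℝ) × (Fin n → ℝ)) : W₀ n :=
  ⟨fun i j => Pool.Agent.H821R3.tau n p i j, by
    have h := Pool.Agent.H821R3.mem_tl.1 (Pool.Agent.H821R3.tau_mem hn p)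
    exact h⟩

theorem vt_continuous {n : ℕ} (hn : 0 < n) : Continuous (vt (n := n) hn) := by
  refine Continuous.subtype_mk ?_ _
  refine continuous_pi fun i => continuous_pi fun j => ?_
  have h := Pool.Agent.H821R3.tau_continuous n
  exact h.matrix_elem i j

/-- entry functional -/
noncomputable def entry {n : ℕ} (i j : Fin n) : W₀ n →L[ℝ] ℝ :=
  LinearMap.toContinuousLinearMap
    ((LinearMap.proj j ∘ₗ (LinearMap.proj i :
      (Fin n → Fin n → ℝ) →ₗ[ℝ] (Fin n → ℝ))) ∘ₗ (W₀ n).subtype)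

theorem entry_vt {n : ℕ} (hn : 0 < n) (i j : Fin n) (hij : i ≠ j)
    (p : (Fin n → ℝ) × (Fin n → ℝ)) : entry i j (vt hn p) = p.1 i * p.2 j := by
  show Pool.Agent.H821R3.tau n p i j = _
  unfold Pool.Agent.H821R3.tau
  simp [Matrix.vecMulVec_apply, hij]

open Pool.Agent.H821R3 in
theorem inv_aux {n : ℕ} (hn : 0 < n) (T : Matrix.SpecialLinearGroup (Fin n) ℝ)
    {K : Set (Fin n → ℝ)} (hK : Body K) (A : W₀ n) :
    A ∈ Phi (vt hn) K ↔ ∃ B ∈ Phi (vt hn) (Matrix.mulVec
      ((T⁻¹ : Matrix.SpecialLinearGroup (Fin n) ℝ) : Matrix (Fin n) (Fin n) ℝ) '' K),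
      Matrix.of A.1 = (T : Matrix (Fin n) (Fin n) ℝ) * Matrix.of B.1 *
        ((T⁻¹ : Matrix.SpecialLinearGroup (Fin n) ℝ) : Matrix (Fin n) (Fin n) ℝ) := by
  set M : Matrix (Fin n) (Fin n) ℝ := (T : Matrix (Fin n) (Fin n) ℝ) with hM
  set S : Matrix (Fin n) (Fin n) ℝ :=
    ((T⁻¹ : Matrix.SpecialLinearGroup (Fin n) ℝ) : Matrix (Fin n) (Fin n) ℝ) with hS
  have hAB : M * S = 1 := by
    rw [hM, hS, ← Matrix.SpecialLinearGroup.coe_mul, mul_inv_cancel,
      Matrix.SpecialLinearGroup.coe_one]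
  have hBA : S * M = 1 := by
    rw [hM, hS, ← Matrix.SpecialLinearGroup.coe_mul, inv_mul_cancel,
      Matrix.SpecialLinearGroup.coe_one]
  have hK' : Body (S.mulVec '' K) := by
    rw [← eqv_image S M hBA hAB]; exact hK.image _
  have hdet : |M.det| = 1 := by rw [hM, Matrix.SpecialLinearGroup.det_coe, abs_one]
  have h := Phi_equivariant hK' M S hAB hBA hdet (vt_continuous hn) (cj M S hAB hBA) (fun p => by
    apply Subtype.ext
    funext i j
    have h1 := tau_act M S hBA hAB p
    show tau n (M *ᵥ p.1, Sᵀ *ᵥ p.2) i j = (M * Matrix.of (vt hn p).1 * S) i j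
    rw [h1]
    rfl)
  have e : M.mulVec '' (S.mulVec '' K) = K := by
    rw [image_image]
    simp [Matrix.mulVec_mulVec, hAB]
  rw [e] at h
  rw [h]
  constructor
  · rintro ⟨B, hB, rfl⟩
    exact ⟨B, hB, rfl⟩
  · rintro ⟨B, hB, hAB'⟩
    refine ⟨B, hB, ?_⟩
    apply Subtype.ext
    have : Matrix.of (cj M S hAB hBA B).1 = Matrix.of A.1 := by rw [hAB']; rfl
    exact Matrix.of.injective this

/-- convex bodies with the origin in the interior -/
def Body0 {E : Type} [NormedAddCommGroup E] [NormedSpace ℝ E] (K : Set E) : Prop :=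
  IsCompact K ∧ Convex ℝ K ∧ (0 : E) ∈ interior K

/-- the values on bodies are nonempty, compact and convex -/
def Bodies {n : ℕ} (Φ : Set (Fin n → ℝ) → Set (W₀ n)) : Prop :=
  ∀ K : Set (Fin n → ℝ), Body0 K → (Φ K).Nonempty ∧ IsCompact (Φ K) ∧ Convex ℝ (Φ K)

/-- invariance under the special linear group acting on `W₀ n` by conjugation -/
def Invariant {n : ℕ} (Φ : Set (Fin n → ℝ) → Set (W₀ n)) : Prop :=
  ∀ (T : Matrix.SpecialLinearGroup (Fin n) ℝ) (K : Set (Fin n → ℝ)), Body0 K → ∀ A : W₀ n,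
    A ∈ Φ K ↔ ∃ B ∈ Φ (Matrix.mulVec (T⁻¹).1 '' K),
      Matrix.of A.1 = T.1 * Matrix.of B.1 * (T⁻¹).1

/-- Minkowski valuations -/
def MinkVal {n : ℕ} (Φ : Set (Fin n → ℝ) → Set (W₀ n)) : Prop :=
  ∀ K L : Set (Fin n → ℝ), Body0 K → Body0 L → Convex ℝ (K ∪ L) →
    Φ (K ∪ L) + Φ (K ∩ L) = Φ K + Φ L

/-- upper semicontinuity -/
def Usc {n : ℕ} (Φ : Set (Fin n → ℝ) → Set (W₀ n)) : Prop :=
  ∀ D : Set (W₀ n), Body0 D → ∀ (Ks : ℕ → Set (Fin n → ℝ)) (K : Set (Fin n → ℝ)),
    (∀ j, Body0 (Ks j)) → Body0 K →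
    Tendsto (fun j => Metric.hausdorffDist (Ks j) K) atTop (𝓝 0) →
    ∃ j0 : ℕ, ∀ j, j0 ≤ j → Φ (Ks j) ⊆ Φ K + D

/-- continuity for the Hausdorff distances -/
def Cts {n : ℕ} (Φ : Set (Fin n → ℝ) → Set (W₀ n)) : Prop :=
  ∀ (Ks : ℕ → Set (Fin n → ℝ)) (K : Set (Fin n → ℝ)), (∀ j, Body0 (Ks j)) → Body0 K →
    Tendsto (fun j => Metric.hausdorffDist (Ks j) K) atTop (𝓝 0) →
    Tendsto (fun j => Metric.hausdorffDist (Φ (Ks j)) (Φ K)) atTop (𝓝 0)

open Pool.Agent.H821R3 in
/-- For every `n ≥ 2` (in particular for every `n ≥ 3`) there is an `SL(n)`-invariant Minkowski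
valuation on the convex bodies with the origin in the interior, with values in the convex bodies
of the space `W₀ n` of traceless endomorphisms (conjugation action), which is upper
semicontinuous but not continuous. -/
theorem result (n : ℕ) (hn : 2 ≤ n) : ∃ Φ : Set (Fin n → ℝ) → Set (W₀ n),
    Bodies Φ ∧ Invariant Φ ∧ MinkVal Φ ∧ Usc Φ ∧ ¬ Cts Φ := by
  have hn0 : 0 < n := by omega
  have hne : Phi (vt hn0) (eball n) ≠ {0} :=
    Phi_eball_ne (vt_continuous hn0) hn0 ⟨0, hn0⟩ ⟨1, by omega⟩ (entry ⟨0, hn0⟩ ⟨1, by omega⟩)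
      (entry_vt hn0 _ _ (by simp))
  refine ⟨Phi (vt hn0), ?_, ?_, ?_, ?_, ?_⟩
  · rintro K ⟨h1, h2, h3⟩
    exact Phi_body ⟨h1, h2, h3⟩ hn0 (vt_continuous hn0)
  · rintro T K ⟨h1, h2, h3⟩ A
    exact inv_aux hn0 T ⟨h1, h2, h3⟩ A
  · rintro K L ⟨h1, h2, h3⟩ ⟨h4, h5, h6⟩ h7
    exact Phi_valuation ⟨h1, h2, h3⟩ ⟨h4, h5, h6⟩ h7 hn0 (vt_continuous hn0)
  · rintro D ⟨_, _, hD⟩ Ks K hKs ⟨h1, h2, h3⟩ ht
    exact Phi_usc (fun j => ⟨(hKs j).1, (hKs j).2.1, (hKs j).2.2⟩)
      ⟨h1, h2, h3⟩ hn0 ht (vt_continuous hn0) hD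
  · intro hc
    obtain ⟨Ks, hKs, ht, hnt⟩ := not_continuous_Phi (vt_continuous hn0) hn hne
    have hB := eball_body n
    exact hnt (hc Ks _ (fun j => ⟨(hKs j).cpt, (hKs j).cvx, (hKs j).int⟩)
      ⟨hB.cpt, hB.cvx, hB.int⟩ ht)

end Pool.Agent.Results.MP_aac655_gt.TracelessValuation
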